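import Pool.Agent.W953.CF.DetDir

/-!
# A deterministic context-free language against NL with few negations, on few slices

An accepting computation of a nondeterministic logspace machine on words of length `n` is a path in
a directed graph of polynomial size whose edges are labelled by literals. Here computations in
rounds are considered whose tests are directed networks with labelled edges, but without negations;
every round depends on the answers of the earlier rounds, and the `cost` is the maximum of the
product of the numbers (number of tests of the round) + 1, so that `t` tests one after the other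
(`t` NOT gates) have cost `2 ^ t`.

There is a deterministic one-way pushdown automaton `A` such that for all large `n` and some tags
of the `n` positions and some set `D` of assignments of bits to the positions on which `A` is
monotone, computations in rounds of cost `M` and size `n ^ c` do not agree with `A` on the elements
of `D` with between `k` and `k + U` ones, as long as `M n ^ (1 / (j + 1)) ≤ U ≤ n - k`. Here `c` and
`j` are arbitrary constants. So `(1 - ε) log n` NOT gates do not suffice, and `t` NOT gates do not
suffice on `2 ^ t n ^ ε` consecutive slices.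

Earlier: `MonotoneCFnotNL` (no negations, a nondeterministic automaton, infinitely many `n`),
`FewNegationsDCF` of MP_9277c3_lc (`(1 - ε) log n` NOT gates, infinitely many `n`, no slices).
-/

set_option autoImplicit false

namespace Pool.Agent.Results.MP_5afa16_lc.DirectedOnSlices

open Pool.Agent.W953.SP Pool.Agent.W953.SR Pool.Agent.W953.NB

/-- the number of ones of an input -/
def ones {n : ℕ} (x : Fin n → Bool) : ℕ := (Finset.univ.filter (fun i => x i = true)).card

/-- the automaton accepts the word with the tags `t` and the bits `x` -/
def Word {Tag : Type} (A : Pool.Agent.H589R2.MNL.DPDA (Tag × Bool)) {n : ℕ} (t : Fin n → Tag)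
    (x : Fin n → Bool) : Prop :=
  A.Accepts (List.ofFn fun i => (t i, x i))

/-- `f` is monotone on `D` -/
def MonoOn {I : Type} (f : (I → Bool) → Prop) (D : Set (I → Bool)) : Prop :=
  ∀ x ∈ D, ∀ y ∈ D, x ≤ y → f x → f y

/-- every computation in rounds of cost at most `M` in which the directed networks on every path
have total size at most `s` disagrees with `f` on some input in `dom` -/
def Hard {I : Type} (f : (I → Bool) → Prop) (dom : (I → Bool) → Prop) (M s : ℕ) : Prop :=
  ∀ p : Prog (Net I), p.cost ≤ M → p.load (dnetTests I) ≤ s →
    ∃ x, dom x ∧ ¬ (p.Acc (dnetTests I) x ↔ f x)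

/-- **A deterministic context-free language needs almost `log n` NOT gates in the monotone model of
NL, also on few consecutive slices.** -/
theorem result : ∃ (Tag : Type) (_ : Fintype Tag) (A : Pool.Agent.H589R2.MNL.DPDA (Tag × Bool)),
    ∀ c j : ℕ, ∃ n₀ : ℕ, ∀ n M U : ℕ, n₀ ≤ n → M ^ (j + 1) * n ≤ U ^ (j + 1) → U ≤ n →
      ∃ (t : Fin n → Tag) (D : Set (Fin n → Bool)), MonoOn (Word A t) D ∧ ∀ k, k + U ≤ n →
        Hard (Word A t) (fun x => x ∈ D ∧ k ≤ ones x ∧ ones x ≤ k + U) M (n ^ c) := by
  refine ⟨Pool.Agent.H589R2.MNL.Tg, inferInstance, Pool.Agent.H589R2.MNL.mach3, fun c j => ?_⟩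
  obtain ⟨n₀, hn₀⟩ := Pool.Agent.W953.CF.det_dir c j
  refine ⟨n₀, fun n M U hn hMU hU => ?_⟩
  obtain ⟨t, D, h1, h2⟩ := hn₀ n M U hn hMU hU
  refine ⟨t, D, h1, fun k hk p hcost hload => ?_⟩
  obtain ⟨x, h3, h4, h5, h6⟩ := h2 k hk p hcost hload
  exact ⟨x, ⟨h3, h4, h5⟩, h6⟩

end Pool.Agent.Results.MP_5afa16_lc.DirectedOnSlices
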