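import Pool.Agent.W985.QP.Pack
import Pool.Agent.W985.QP.LangTrees

/-!
# The trade-off between size and rank for context-free languages

A context-free language for which the nondeterministic programs which read each letter at most `k`
times have `n ^ (c_k log n)` nodes, and more generally for which the logarithm of the size times the
rank of the circuits is at least `c_k (log n) ^ 2`. All context-free languages have (read-once)
circuits which reach this bound.
-/

namespace Pool.Agent.Results.MP_5afa16_lc.RankSizeTradeoff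

open Pool.Agent.W985.RK (NBP) 
open Pool.Agent.W985.QPC Pool.Agent.W985.QP

/-- (1) There is a context-free language `L` such that for all `k` and `n` with
`2 ^ (21 (k + 1)) ≤ log n` there is a set `F` of words of length `n` in `L` such that each
nondeterministic program with `S` nodes which reads each letter at most `k` times on every walk and
which accepts only words in `L` accepts at most `S |F| / n ^ (log n / 2 ^ (21 (k + 1)))` words of `F`,
and each circuit with `S` gates whose proof trees of rank at most `q` read each letter at most `k`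
times and prove only words in `L` has such proof trees for at most
`(S + 1) ^ (q + 1) |F| / n ^ (log n / 2 ^ (21 (k + 1)))` words of `F`.

(2) For each context-free language, there are for all `n` and `t` circuits with
`(c (n + 1) ^ 3) ^ (t + 2)` gates whose proof trees read each letter at most once and prove only words
in the language, and the words in the language have proof trees of rank `(log n + c) / (t + 1) + 1`. -/
theorem result :
    (∃ (Γ : Type) (_ : Fintype Γ) (L : Language Γ), L.IsContextFree ∧
      ∀ k n : ℕ, 2 ^ (21 * (k + 1)) ≤ Nat.log 2 n →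
        ∃ F : Finset (Fin n → Γ), F.Nonempty ∧ (∀ w ∈ F, List.ofFn w ∈ L) ∧
          (∀ (S : ℕ) (B : NBP n Γ S), B.ReadTimes k → (∀ w, B.Accepts w → List.ofFn w ∈ L) →
            {w : Fin n → Γ | w ∈ F ∧ B.Accepts w}.ncard ^ 2 ^ (21 * (k + 1)) * n ^ Nat.log 2 n ≤
              (S * F.card) ^ 2 ^ (21 * (k + 1))) ∧
          ∀ (q S : ℕ) (C : Fin S → Gate n Γ S) (root : Fin S), ReadTimes C root q k →
            (∀ w, Accepts C root q w → List.ofFn w ∈ L) →
            {w : Fin n → Γ | w ∈ F ∧ Accepts C root q w}.ncard ^ 2 ^ (21 * (k + 1)) *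
              n ^ Nat.log 2 n ≤ ((S + 1) ^ (q + 1) * F.card) ^ 2 ^ (21 * (k + 1))) ∧
    ∀ (T : Type) [Fintype T] (L : Language T), L.IsContextFree → ∃ c : ℕ, ∀ n t : ℕ,
      ∃ (S : ℕ) (C : Fin S → Gate n T S) (root : Fin S), S ≤ (c * (n + 1) ^ 3) ^ (t + 2) ∧
        (∀ q, ReadTimes C root q 1) ∧ (∀ q w, Accepts C root q w → List.ofFn w ∈ L) ∧
        ∀ w : Fin n → T, List.ofFn w ∈ L →
          Accepts C root ((Nat.log 2 n + c) / (t + 1) + 1) w := by
  classical
  constructor
  · refine ⟨Pool.Agent.W985.RK.Lt, inferInstance, Pool.Agent.W985.RK.lang,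
      Pool.Agent.W985.RK.isContextFree, fun k n hn => ?_⟩
    obtain ⟨F, h1, h2, h3⟩ := hard hasTrees k n hn
    have key : ∀ (S : ℕ) (B : NBP n Pool.Agent.W985.RK.Lt S), B.ReadTimes k →
        (∀ w, B.Accepts w → List.ofFn w ∈ Pool.Agent.W985.RK.lang) →
        {w : Fin n → Pool.Agent.W985.RK.Lt | w ∈ F ∧ B.Accepts w}.ncard ^ 2 ^ (21 * (k + 1)) *
          n ^ Nat.log 2 n ≤ (S * F.card) ^ 2 ^ (21 * (k + 1)) := by
      intro S B hB hL
      have h5 : {w : Fin n → Pool.Agent.W985.RK.Lt | w ∈ F ∧ B.Accepts w} =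
          ↑(F.filter fun w => B.Accepts w) := by
        ext w
        simp
      rw [h5, Set.ncard_coe_finset]
      exact h3 S B hB hL
    refine ⟨F, h1, h2, key, fun q S C root hC hL => ?_⟩
    have h6 := key _ (prog C root q) (prog_readTimes hC) fun w hw => hL w (prog_accepts.1 hw)
    have h7 : {w : Fin n → Pool.Agent.W985.RK.Lt | w ∈ F ∧ (prog C root q).Accepts w} =
        {w : Fin n → Pool.Agent.W985.RK.Lt | w ∈ F ∧ Accepts C root q w} := by
      ext w
      rw [Set.mem_setOf_eq, Set.mem_setOf_eq, prog_accepts]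
    rw [h7] at h6
    exact h6.trans (Nat.pow_le_pow_left (Nat.mul_le_mul_right _ (card_codes q S)) _)
  · intro T _ L hL
    obtain ⟨c, hc⟩ := upper hL
    refine ⟨2 * (c + 1), fun n t => ?_⟩
    obtain ⟨S, C, root, h1, h2, h3, h4⟩ := hc n
    obtain ⟨S', C', root', h5, h6, h7, h8⟩ := pack C root 1 t h2
    refine ⟨S', C', root', h5.trans ?_, h6, fun q w hw => ?_, fun w hw => ?_⟩
    · have h9 : S + 1 ≤ (c + 1) * (n + 1) ^ 3 := by
        have : 1 ≤ (n + 1) ^ 3 := Nat.one_le_pow _ _ (by omega)
        rw [add_mul, one_mul]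
        omega
      calc 2 * (S + 1) ^ (t + 2) ≤ 2 ^ (t + 2) * ((c + 1) * (n + 1) ^ 3) ^ (t + 2) :=
            Nat.mul_le_mul (Nat.le_self_pow (by omega) 2) (Nat.pow_le_pow_left h9 _)
        _ = (2 * (c + 1) * (n + 1) ^ 3) ^ (t + 2) := by rw [← mul_pow, mul_assoc]
    · obtain ⟨q', hq'⟩ := h7 q w hw
      exact h3 q' w hq'
    · obtain ⟨r, hr, l, h9, h10⟩ := h8 _ w (h4 w hw)
      refine ⟨r, hr.trans ?_, l, h9, h10⟩
      have : (Nat.log 2 n + c) / (t + 1) ≤ (Nat.log 2 n + 2 * (c + 1)) / (t + 1) :=
        Nat.div_le_div_right (by omega)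
      omega

end Pool.Agent.Results.MP_5afa16_lc.RankSizeTradeoff
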