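import Pool.Agent.W997.CS.Main
import Pool.Agent.W21.CSPDA
import Pool.Agent.W750.CSLEN
import Pool.Agent.W412.CSSIM
import Pool.Agent.W692.CS.Sel

/-!
# Context-free languages and programs of all modes which read few positions

There is one language `A` over six letters, accepted by a real-time one-way deterministic pushdown
automaton (so `A` is deterministic context-free), such that for every `δ > 0` and all large `m`
there is a set `F` of words of length `m` with the following properties.

* For every `r ≥ 1` membership of the words of `F` in `A` is decided by a deterministic program with
  a stack, with `m ^ (9 r)` states and stack symbols (space `O(log m)` for bounded `r`), stack height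
  `(log m) / r` and only `m ^ δ` steps.  So this is easy for deterministic pushdown machines with
  logarithmic space, although they read very few positions of the word.
* Without a pushdown store it is impossible in every mode: if a program with any branching and any
  mode of acceptance (nondeterministic, co-nondeterministic, alternating, counting, ...) has a stack
  of height at most `τ` and `(τ + 1)` times its log size is at most `ε log ^ 2 m` (for `τ = 0`: space
  `ε log ^ 2 m` without pushdown store; nondeterministic logarithmic space is `O(log m)`), and it is
  right on a fraction of at least `1 / 2 + m ^ (-c)` of `F`, then in its reachable configurations on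
  average over `F` at least `m ^ (1 - δ)` different positions are read.

So for machines which read few positions some (deterministic) context-free language is not in
nondeterministic logarithmic space, the product of stack height and space which is needed is
`Θ(log ^ 2 m)`, and the bound `log ^ 2` for the space of context-free languages is optimal in every
mode.

The words of `F` describe instances of tree evaluation on the unrolled De Bruijn graph: the values of
the children of a node are on the stack when the table of the node arrives, which is written as a
bracketed decision tree.
-/

set_option autoImplicit false

namespace Pool.Agent.Results.MP_5afa16_lc.StackVersusAllModes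

open Pool.Agent.W997.CS
open Pool.Agent.H561R2.CF (RDPDA)

/-- There is a language `A` over `Fin 6` of a real-time one-way deterministic pushdown automaton
such that for every `δ > 0` there are `ε, c > 0` such that for all large `m` there is a nonempty set
`F` of words of length `m` with: for every `r ≥ 1` deterministic programs with a stack, of log size
`9 r log m`, with stack height `(log m) / r`, decide membership of the words of `F` in `A` within
time `m ^ δ`; but every program with a stack, with any branching and any mode of acceptance, for
which (stack height + 1) times log size is at most `ε log ^ 2 m` and which is right on a fraction of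
at least `1 / 2 + m ^ (-c)` of `F`, reads in its reachable configurations on average at least
`m ^ (1 - δ)` different positions. -/
theorem result : ∃ (Q Γ : Type) (_ : Fintype Q) (_ : Fintype Γ) (M : RDPDA Q Γ (Fin 6)),
    ∀ δ : ℝ, 0 < δ → ∃ ε : ℝ, 0 < ε ∧ ∃ c : ℝ, 0 < c ∧ ∃ m₀ : ℕ, ∀ m : ℕ, m₀ ≤ m →
      ∃ F : Finset (Fin m → Fin 6), F.Nonempty ∧
        (∀ r : ℕ, 1 ≤ r →
          StackDecided M.language F (9 * r * Real.log m) (Real.log m / r) ((m : ℝ) ^ δ)) ∧
        HardModes M.language F (ε * Real.log m ^ 2) ((m : ℝ) ^ (-c)) ((m : ℝ) ^ (1 - δ)) :=
  ⟨Pool.Agent.W997.CF.St, Pool.Agent.W997.CF.Sy, inferInstance, inferInstance,
    Pool.Agent.W997.CF.mach, fun δ hδ =>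
    main Pool.Agent.W21.CSPDA.main Pool.Agent.W750.CSLEN.main Pool.Agent.W412.CSSIM.main
      Pool.Agent.W692.CS.main δ hδ⟩

end Pool.Agent.Results.MP_5afa16_lc.StackVersusAllModes
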